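import Pool.Agent.Y303.SK.XDefs
import Pool.Agent.Y328.SK.Bas
import Pool.Agent.Y841.SK.MM
import Mathlib

/-!
# Project SKX: the complete system of the other swirl-free modes
-/

open Set Filter Topology MeasureTheory Metric

set_option autoImplicit false

namespace Pool.Agent.Y48.SK

open Pool.Agent.Y5 (E3)
open Pool.Agent.Y5.D (Ix qd vf3 Init)
open Pool.Agent.Y303.SK
open Pool.Agent.Y328.SK (VS TT inner_TT norm_TT TT_inj Ln GS proj)
open Pool.Agent.Y841.SK (cs_sc ipr_sc supp_sc)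

noncomputable section

theorem rtz_add (θ : ℝ) (x y : E3) : rtz θ (x + y) = rtz θ x + rtz θ y := by
  ext i
  fin_cases i <;> simp [rtz] <;> ring

theorem rtz_smul (θ c : ℝ) (x : E3) : rtz θ (c • x) = c • rtz θ x := by
  ext i
  fin_cases i <;> simp [rtz] <;> ring

/-- the swirl-free fields as a vector space -/
def PV : Submodule ℝ (VS univ) where
  carrier := {v | Pol (v : E3 → E3)}
  zero_mem' := by
    refine ⟨fun θ x => ?_, fun x => ?_⟩
    · have := rtz_smul θ 0 (0 : E3)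
      rw [zero_smul, zero_smul] at this
      exact this.symm
    · simp
  add_mem' := by
    intro v w hv hw
    refine ⟨fun θ x => ?_, fun x => ?_⟩
    · change (v : E3 → E3) (rtz θ x) + (w : E3 → E3) (rtz θ x) =
        rtz θ ((v : E3 → E3) x + (w : E3 → E3) x)
      rw [hv.axi, hw.axi, rtz_add]
    · change x 0 * ((v : E3 → E3) x + (w : E3 → E3) x) 1 -
        x 1 * ((v : E3 → E3) x + (w : E3 → E3) x) 0 = 0
      rw [PiLp.add_apply, PiLp.add_apply]
      linear_combination hv.swirl x + hw.swirl x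
  smul_mem' := by
    intro c v hv
    refine ⟨fun θ x => ?_, fun x => ?_⟩
    · change c • (v : E3 → E3) (rtz θ x) = rtz θ (c • (v : E3 → E3) x)
      rw [hv.axi, rtz_smul]
    · change x 0 * (c • (v : E3 → E3) x) 1 - x 1 * (c • (v : E3 → E3) x) 0 = 0
      rw [PiLp.smul_apply, PiLp.smul_apply, smul_eq_mul, smul_eq_mul]
      linear_combination c * hv.swirl x

theorem Pol_sc {r : ℝ} (hr : 0 < r) {F : E3 → E3} (hF : Pol F) : Pol (sc 0 r F) := by
  refine ⟨fun θ x => ?_, fun x => ?_⟩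
  · unfold sc
    rw [sub_zero, sub_zero, ← rtz_smul, hF.axi, rtz_smul]
  · have h := hF.swirl (r⁻¹ • (x - 0))
    unfold sc
    rw [PiLp.smul_apply, PiLp.smul_apply, smul_eq_mul, smul_eq_mul]
    rw [PiLp.smul_apply, PiLp.smul_apply, smul_eq_mul, smul_eq_mul, sub_zero] at h
    rw [sub_zero]
    have h2 : x 0 * F (r⁻¹ • x) 1 - x 1 * F (r⁻¹ • x) 0 = 0 := by
      have h3 : r⁻¹ * (x 0 * F (r⁻¹ • x) 1 - x 1 * F (r⁻¹ • x) 0) = 0 := by
        linear_combination h
      exact (mul_eq_zero.1 h3).resolve_left (by positivity)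
    linear_combination (r * √r)⁻¹ * h2

/-- the rescaled fields -/
theorem exists_seqX (hp : S_PKX) {R₀ : ℝ} (hR : 0 < R₀) : ∃ f : ℕ → E3 → E3,
    (∀ k, CS univ (f k)) ∧ (∀ k, Pol (f k)) ∧ (∀ k, ∀ x ∈ ball (0 : E3) R₀, f k x = 0) ∧
    (∀ k, f k ≠ 0) ∧ ∀ j k, j ≠ k → ∀ x, f j x = 0 ∨ f k x = 0 := by
  obtain ⟨Ψ, H, a, κ, h, q, q', hPk, _, hH⟩ := hp
  have hq' := hPk.q'0
  have hqq := hPk.qq
  have hq : 0 < q := hq'.trans hqq
  set ρ : ℕ → ℝ := fun k => (R₀ / q') * (q / q') ^ k with hρ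
  have hρ0 : ∀ k, 0 < ρ k := fun k => by positivity
  have h1q : 1 < q / q' := by rwa [one_lt_div hq']
  have hmono : ∀ j k, j < k → ρ j * q ≤ ρ k * q' := by
    intro j k hjk
    have h1 : (q / q') ^ (j + 1) ≤ (q / q') ^ k := pow_le_pow_right₀ h1q.le hjk
    have h2 : ρ j * q = (R₀ / q') * (q / q') ^ (j + 1) * q' := by
      rw [hρ, pow_succ]
      field_simp
    rw [h2]
    have h3 : 0 < R₀ / q' := by positivity
    have h4 : (R₀ / q') * (q / q') ^ (j + 1) ≤ (R₀ / q') * (q / q') ^ k :=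
      mul_le_mul_of_nonneg_left h1 h3.le
    exact mul_le_mul_of_nonneg_right h4 hq'.le
  have hout : ∀ k, R₀ ≤ ρ k * q' := by
    intro k
    have h1 : 1 ≤ (q / q') ^ k := one_le_pow₀ h1q.le
    have h2 : ρ k * q' = R₀ * (q / q') ^ k := by
      simp only [hρ]
      field_simp
    rw [h2]
    nlinarith
  have key : ∀ k x, sc 0 (ρ k) H x ≠ 0 → ρ k * q' < ‖x‖ ∧ ‖x‖ < ρ k * q := by
    intro k x hx
    have h1 : H ((ρ k)⁻¹ • (x - 0)) ≠ 0 := by
      intro h0
      apply hx
      unfold sc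
      rw [h0, smul_zero]
    have h2 := hPk.Hcs.supp (subset_tsupport _ h1)
    rw [sub_zero] at h2
    obtain ⟨h3, h4⟩ := h2
    rw [mem_ball_zero_iff, norm_smul, norm_inv, Real.norm_of_nonneg (hρ0 k).le] at h3
    rw [mem_closedBall_zero_iff, norm_smul, norm_inv, Real.norm_of_nonneg (hρ0 k).le, not_le] at h4
    rw [inv_mul_lt_iff₀ (hρ0 k)] at h3
    rw [lt_inv_mul_iff₀ (hρ0 k)] at h4
    exact ⟨h4, h3⟩
  refine ⟨fun k => sc 0 (ρ k) H, fun k => cs_sc 0 (hρ0 k) hPk.Hcs (fun x _ => mem_univ x),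
    fun k => Pol_sc (hρ0 k) hH, fun k x hx => ?_, fun k h0 => ?_, ?_⟩
  · by_contra hne
    have h1 := (key k x hne).1
    rw [mem_ball_zero_iff] at hx
    linarith [hout k]
  · have h1 := ipr_sc 0 (hρ0 k) H H
    rw [hPk.Hn, show sc 0 (ρ k) H = 0 from h0] at h1
    simp [ipr] at h1
  · have key2 : ∀ j k, j < k → ∀ x, sc 0 (ρ j) H x = 0 ∨ sc 0 (ρ k) H x = 0 := by
      intro j k hjk x
      by_contra hne
      push Not at hne
      have h1 := (key j x hne.1).2
      have h2 := (key k x hne.2).1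
      linarith [hmono j k hjk]
    intro j k hjk x
    rcases lt_or_gt_of_ne hjk with h | h
    · exact key2 j k h x
    · exact (key2 k j h x).symm

theorem t_BASX (hd : S_DENSX) (hg : S_GS) (hp : S_PKX) : S_BASX := by
  intro R₀ ψ hR hψ0 hψP hψo hψs hψl
  classical
  have hψ : ∀ n, CS univ (ψ n) := fun n => Pool.Agent.Y328.SK.cs_mono (subset_univ _) (hψ0 n)
  have hψz : ∀ n x, x ∉ ball (0 : E3) R₀ → ψ n x = 0 := fun n x hx =>
    image_eq_zero_of_notMem_tsupport fun h => hx ((hψ0 n).supp h)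
  set X0 : Set (VS univ) := {v | Pol (v : E3 → E3) ∧ ∃ ρ > 0, ∀ x ∈ ball (0 : E3) ρ,
    (v : E3 → E3) x = 0} with hX0
  set Y : Set (Lp E3 2 (volume : Measure E3)) := TT univ '' X0 with hY
  have : Nonempty Y := ⟨⟨TT univ 0, ⟨0, ⟨PV.zero_mem, ⟨1, one_pos, fun x _ => rfl⟩⟩, rfl⟩⟩⟩
  have : Fact ((2 : ENNReal) ≠ ⊤) := ⟨by norm_num⟩
  have : SecondCountableTopology (Lp E3 2 (volume : Measure E3)) := inferInstance
  obtain ⟨u, hu⟩ := TopologicalSpace.exists_dense_seq Y
  choose U hU0 hU using fun k => (u k).2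
  choose N b hb using fun k => proj hψ hψo hψs hψl (U k) (hU0 k).2
  obtain ⟨f, hfΩ, hfP, hf1, hf2, hf3⟩ := exists_seqX hp hR
  set Ψ : ℕ → VS univ := fun n => ⟨ψ n, hψ n⟩ with hΨ
  set f' : ℕ → VS univ := fun n => ⟨f n, hfΩ n⟩ with hf'
  set Φ : ℕ → VS univ := fun k => if Even k then
    U (k / 2) - ∑ n ∈ Finset.range (N (k / 2)), b (k / 2) n • Ψ n else f' (k / 2) with hΦdef
  have hΦe : ∀ k, Φ (2 * k) = U k - ∑ n ∈ Finset.range (N k), b k n • Ψ n := by
    intro k
    simp only [hΦdef]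
    rw [if_pos (even_two_mul k), Nat.mul_div_cancel_left k two_pos]
  have hΦo : ∀ k, Φ (2 * k + 1) = f' k := by
    intro k
    simp only [hΦdef]
    rw [if_neg (by rw [Nat.not_even_iff_odd]; exact odd_two_mul_add_one k)]
    congr 1
    omega
  have hfG : ∀ k, f' k ∈ GS univ 0 ψ hψ := by
    intro k
    refine ⟨⟨0, R₀, hR, fun x hx => ?_⟩, fun n => ?_⟩
    · rw [zero_smul]
      exact hf1 k x hx
    · rw [inner_TT]
      unfold ipr
      rw [integral_eq_zero_of_ae]
      refine Eventually.of_forall fun x => ?_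
      by_cases hx : x ∈ ball (0 : E3) R₀
      · simp [hf', hf1 k x hx]
      · simp [hψz n x hx]
  have hΦG : ∀ k, Φ k ∈ GS univ 0 ψ hψ := by
    intro k
    rcases Nat.even_or_odd' k with ⟨m, h | h⟩
    · rw [h, hΦe]
      exact hb m
    · rw [h, hΦo]
      exact hfG m
  have hΦP : ∀ k, Φ k ∈ PV := by
    intro k
    rcases Nat.even_or_odd' k with ⟨m, h | h⟩
    · rw [h, hΦe]
      exact PV.sub_mem (hU0 m).1 (PV.sum_mem fun n _ => PV.smul_mem _ (hψP n))
    · rw [h, hΦo]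
      exact hfP m
  -- infinitely many dimensions
  have hli : LinearIndependent ℝ (fun k => TT univ (f' k)) := by
    apply linearIndependent_of_ne_zero_of_inner_eq_zero (𝕜 := ℝ)
    · intro k h
      apply hf2 k
      have h1 : f' k = 0 := TT_inj (by rw [h, map_zero])
      exact congrArg Subtype.val h1
    · intro j k hjk
      rw [inner_TT]
      unfold ipr
      rw [integral_eq_zero_of_ae]
      refine Eventually.of_forall fun x => ?_
      rcases hf3 j k hjk x with h | h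
      · simp [hf', h]
      · simp [hf', h]
  have hinf : ¬ FiniteDimensional ℝ (Submodule.span ℝ (range fun k => TT univ (Φ k))) := by
    intro hfin
    set M := Submodule.span ℝ (range fun k => TT univ (Φ k)) with hM
    have h1 : ∀ k, TT univ (f' k) ∈ M := fun k =>
      Submodule.subset_span ⟨2 * k + 1, by simp only [hΦo]⟩
    have h2 : LinearIndependent ℝ (fun k : ℕ => (⟨TT univ (f' k), h1 k⟩ : M)) :=
      LinearIndependent.of_comp M.subtype hli
    have h3 := h2.finite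
    exact not_finite ℕ
  obtain ⟨w, hwo, hwφ, hφw⟩ := hg (Lp E3 2 (volume : Measure E3)) (fun k => TT univ (Φ k)) hinf
  have hspan : Submodule.span ℝ (range fun k => TT univ (Φ k)) =
      (Submodule.span ℝ (range Φ)).map (TT univ) := by
    rw [Submodule.map_span, ← range_comp]
    rfl
  have hW : ∀ j, ∃ W ∈ Submodule.span ℝ (range Φ), TT univ W = w j := by
    intro j
    have h1 := hwφ j
    rw [hspan] at h1
    exact h1
  choose W hW1 hW2 using hW
  have hWG : ∀ j, W j ∈ GS univ 0 ψ hψ := fun j =>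
    (Submodule.span_le.2 (range_subset_iff.2 hΦG)) (hW1 j)
  have hWP : ∀ j, W j ∈ PV := fun j =>
    (Submodule.span_le.2 (range_subset_iff.2 hΦP)) (hW1 j)
  refine ⟨fun j => W j, ⟨fun j => (W j).2, fun j => (hWG j).1, fun i j => ?_, fun n j => ?_⟩,
    fun j => hWP j, ?_⟩
  · change (i = j → ipr (W i) (W j) = 1) ∧ (i ≠ j → ipr (W i) (W j) = 0)
    rw [← inner_TT, hW2, hW2]
    have h1 := orthonormal_iff_ite.1 hwo i j
    rw [h1]
    exact ⟨fun h => if_pos h, fun h => if_neg h⟩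
  · change ipr (ψ n) (W j) = 0
    have := (hWG j).2 n
    rwa [inner_TT] at this
  · intro v hv hvP ε hε
    obtain ⟨v0, hv0, hv0P, hv0', hlt⟩ := hd v hv hvP (ε / 4) (by positivity)
    set V : VS univ := ⟨v, hv⟩ with hV
    set V0 : VS univ := ⟨v0, hv0⟩ with hV0
    have hsq : 0 < √ε / 2 := by positivity
    have h1 : ‖TT univ (V - V0)‖ < √ε / 2 := by
      apply lt_of_pow_lt_pow_left₀ 2 hsq.le
      rw [norm_TT, div_pow, Real.sq_sqrt hε.le]
      norm_num
      exact hlt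
    obtain ⟨k, hk⟩ := hu.exists_dist_lt (⟨TT univ V0, ⟨V0, ⟨hv0P, hv0'⟩, rfl⟩⟩ : Y) hsq
    have h2 : ‖TT univ (V0 - U k)‖ < √ε / 2 := by
      rw [map_sub, hU k, ← dist_eq_norm]
      exact hk
    have h3 : TT univ (Φ (2 * k)) ∈ Submodule.span ℝ (range w) := hφw (2 * k)
    obtain ⟨c, hc⟩ := (Finsupp.mem_span_range_iff_exists_finsupp).1 h3
    have h4 : ∑ j ∈ c.support, c j • W j = Φ (2 * k) := by
      apply TT_inj
      rw [map_sum, ← hc]
      refine Finset.sum_congr rfl fun j _ => ?_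
      rw [map_smul, hW2]
    have h5 : U k = ∑ n ∈ Finset.range (N k), b k n • Ψ n + ∑ j ∈ c.support, c j • W j := by
      rw [h4, hΦe]
      abel
    refine ⟨Finset.disjSum (Finset.range (N k)) c.support, Sum.elim (b k) c, ?_⟩
    have h6 : ∀ x, ∑ a ∈ Finset.disjSum (Finset.range (N k)) c.support,
        (Sum.elim (b k) c : Ix (ℕ × Bool) → ℝ) a • em ψ (fun j => (W j : E3 → E3)) a x =
        ((U k : VS univ) : E3 → E3) x := by
      intro x
      rw [h5, Finset.sum_disjSum, Submodule.coe_add, Pi.add_apply, Submodule.coe_sum,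
        Submodule.coe_sum, Finset.sum_apply, Finset.sum_apply]
      rfl
    simp_rw [h6]
    have h7 : ∫ x, ‖v x - ((U k : VS univ) : E3 → E3) x‖ ^ 2 = ‖TT univ (V - U k)‖ ^ 2 := by
      rw [norm_TT]
      rfl
    rw [h7]
    have h8 : TT univ (V - U k) = TT univ (V - V0) + TT univ (V0 - U k) := by
      rw [← map_add, sub_add_sub_cancel]
    have h9 : ‖TT univ (V - U k)‖ < √ε := by
      rw [h8]
      linarith [norm_add_le (TT univ (V - V0)) (TT univ (V0 - U k))]
    calc ‖TT univ (V - U k)‖ ^ 2 < √ε ^ 2 := pow_lt_pow_left₀ h9 (norm_nonneg _) two_ne_zero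
      _ = ε := Real.sq_sqrt hε.le

end

end Pool.Agent.Y48.SK
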